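import Pool.Agent.Helper33.QB.Frame
import Pool.Agent.Helper55.QB.Poset2

/-!
# Project QB, module QB-P8: names of injections into `ω` are not defined on a level
-/

set_option autoImplicit false

namespace Pool.Agent.Helper33.QB

open Set Pool.Agent.Helper33.HMG Pool.Agent.Helper32.HB

variable {Ω : Type} {α : Ordinal.{0}} {b : Ordinal.{0} → NmD Ω Ordinal.{0}}

/-- Names of injections into `ω` are not defined on a level. -/
theorem lvl_dense [Uncountable Ω] (hα : Ind α) {T : CP Ω α b → Ω → ℕ → Prop}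
    (hm : ∀ p q x n, q ≤ p → T p x n → T q x n) {β : Ordinal.{0}} (hβ : β < α)
    (p : CP Ω α b) : ∃ q ≤ p, ∃ y ∈ q.1.Y, q.1.r y = β ∧ ∀ q' ≤ q, ∀ n, T q' y n →
      ∃ y' ∈ q'.1.Y, y' ≠ y ∧ q'.1.r y' = β ∧ T q' y' n := by
  classical
  have hstep : ∀ (n : ℕ) (s : CP Ω α b), ∃ q ≤ s,
      (∃ q' ≤ s, ∃ y ∈ q'.1.Y, q'.1.r y = β ∧ T q' y n) →
        ∃ y ∈ q.1.Y, q.1.r y = β ∧ T q y n := by
    intro n s
    by_cases h : ∃ q' ≤ s, ∃ y ∈ q'.1.Y, q'.1.r y = β ∧ T q' y n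
    · obtain ⟨q', hq', y, hy⟩ := h
      exact ⟨q', hq', fun _ => ⟨y, hy⟩⟩
    · exact ⟨s, le_rfl, fun h' => absurd h' h⟩
  choose st hst1 hst2 using hstep
  let pn : ℕ → CP Ω α b := fun n => Nat.rec p (fun m s => st m s) n
  have hpn0 : pn 0 = p := rfl
  have hpnS : ∀ n, pn (n + 1) = st n (pn n) := fun n => rfl
  obtain ⟨q0, hq0, hY⟩ := cp_seq (pn := pn) (fun n => by rw [hpnS]; exact hst1 n (pn n))
  obtain ⟨q, hq, y, hy, hy0, hry⟩ := cp_rank hα q0 hβ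
  refine ⟨q, (hq.trans (hq0 0)), y, hy, hry, fun q' hq' n hT => ?_⟩
  have hle : q' ≤ q0 := hq'.trans hq
  have hyq' : y ∈ q'.1.Y := hq'.cp.sub hy
  have hr' : q'.1.r y = β := (hq'.cp.rk y hy).trans hry
  obtain ⟨z, hz, hrz, hTz⟩ := hst2 n (pn n) ⟨q', hle.trans (hq0 n), y, hyq', hr', hT⟩
  rw [← hpnS] at hz hrz hTz
  have h1 : q' ≤ pn (n + 1) := hle.trans (hq0 (n + 1))
  refine ⟨z, h1.cp.sub hz, ?_, (h1.cp.rk z hz).trans hrz, hm _ _ _ _ h1 hTz⟩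
  rintro rfl
  exact hy0 ((hq0 (n + 1)).cp.sub hz)

end Pool.Agent.Helper33.QB
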