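import Pool.Agent.Helper33.QB.Gd2

/-!
# Project QB, module QB-MD3: the ring and the rank function belong to the model
-/

set_option autoImplicit false

namespace Pool.Agent.Helper33.QB

open Set Pool.Agent.Helper33.HMG Pool.Agent.Helper32.HB

variable {Ω : Type} [LinearOrder Ω] [WellFoundedLT Ω] {α : Ordinal.{0}} [Fact (Ind α)]
  {b : Ordinal.{0} → NmD Ω Ordinal.{0}} {R : Type}
  {W : R → (ℕ → Nm (CP Ω α b)) → CP Ω α b → Nm (CP Ω α b) → Prop} {a0 : Ω} {g : Gen W}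

/-- The elements of the name `QB.ringN` in the generic extension. -/
theorem h14_ring_req (hg : Gd a0 g) {σ : Nm (CP Ω α b)} (hσ : σ ∈ g.N) {k : ℕ}
    (h : fmem σ QB.ringN (g.pc k)) :
    ∃ K0 : Set Ω, ckS K0 ∈ g.N ∧ ∃ l, K0 ∈ (g.pc l).1.R ∧ feq σ (ckS K0) (g.pc l) := by
  obtain ⟨i, hi, l, hl, hl'⟩ := g.mem_req hσ hg.ringN h
  obtain ⟨⟨K0, p⟩, hK⟩ := i
  change CP Ω α b at p
  change K0 ∈ p.1.R at hK
  change g.pc l ≤ p at hl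
  exact ⟨K0, hi, l, ((hl.cp.ring K0).1 hK).1, hl'⟩

theorem h14_ckS_req (_hg : Gd a0 g) {K0 : Set Ω} (hK0 : (ckS K0 : Nm (CP Ω α b)) ∈ g.N)
    {ρ : Nm (CP Ω α b)} (hρ : ρ ∈ g.N) {k : ℕ} (h : fmem ρ (ckS K0) (g.pc k)) :
    ∃ x : OM g, x.1 ∈ K0 ∧ ∃ m, feq ρ (ck x.1) (g.pc m) := by
  obtain ⟨i, hi, l, hl, hl'⟩ := g.mem_req hρ hK0 h
  obtain ⟨⟨x, hx⟩⟩ := i
  exact ⟨⟨x, hi⟩, hx, l, hl'⟩

theorem Gd.ring_mem (hg : Gd a0 g) : RM g ∈ S3M g := by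
  refine ⟨QB.ringN, hg.ringN, ?_, ?_⟩
  · intro σ hσ k hk ρ hρ l hl
    obtain ⟨K0, hK0, m, -, hm⟩ := h14_ring_req hg hσ hk
    have h1 : fmem ρ (ckS K0) (g.pc (max l m)) :=
      fmem_congr_right (feq_mono hm (g.pc_le (le_max_right _ _)))
        (fmem_mono hl (g.pc_le (le_max_left _ _)))
    obtain ⟨x, -, hx⟩ := h14_ckS_req hg hK0 hρ h1
    exact ⟨x, hx⟩
  · intro K
    constructor
    · rintro ⟨K0, hK0, ⟨k, hk⟩, hK⟩
      refine ⟨ckS K0, hK0, ⟨k, ?_⟩, fun x => ?_⟩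
      · exact fmem_child (QB.ringN : Nm (CP Ω α b)) (⟨(K0, g.pc k), hk⟩ :
          {z : Set Ω × CP Ω α b // z.1 ∈ z.2.1.R}) le_rfl
      · rw [hK]
        constructor
        · exact fun h => ⟨0, fmem_ckS.2 h⟩
        · rintro ⟨l, hl⟩
          exact fmem_ckS.1 hl
    · rintro ⟨σ, hσ, ⟨k, hk⟩, hK⟩
      obtain ⟨K0, hK0, m, hm, hm'⟩ := h14_ring_req hg hσ hk
      refine ⟨K0, hK0, ⟨m, hm⟩, fun x => ?_⟩
      rw [hK]
      constructor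
      · rintro ⟨l, hl⟩
        have h1 : fmem (ck x.1) (ckS K0) (g.pc (max l m)) :=
          fmem_congr_right (feq_mono hm' (g.pc_le (le_max_right _ _)))
            (fmem_mono hl (g.pc_le (le_max_left _ _)))
        exact fmem_ckS.1 h1
      · intro h
        exact ⟨m, fmem_congr_right (feq_symm hm') (fmem_ckS.2 h)⟩

theorem Gd.rank_mem (hg : Gd a0 g) : (fun x y => y = rM g x) ∈ S2M g := by
  refine ⟨QB.rankN, hg.rankN, fun x y => ?_⟩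
  have h0 : (∃ k, fmem (opN (ck x.1) (ck y.1)) (QB.rankN : Nm (CP Ω α b)) (g.pc k)) ↔
      ∃ k, ∃ p ∈ {p : CP Ω α b | x.1 ∈ p.1.Y ∧ ot y.1 = p.1.r x.1}, g.pc k ≤ p :=
    hg.rel (G := fun x y => {p : CP Ω α b | x ∈ p.1.Y ∧ ot y = p.1.r x}) hg.rankN x y
  rw [h0]
  constructor
  · rintro rfl
    obtain ⟨k, hk⟩ := hg.memY x
    exact ⟨k, g.pc k, ⟨hk, (hg.ot_rM x).1.trans (rkM_eq hk)⟩, le_rfl⟩
  · rintro ⟨k, p, ⟨hx, hy⟩, hp⟩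
    have h1 : rkM g x.1 = (g.pc k).1.r x.1 := rkM_eq (hp.cp.sub hx)
    have h2 : (g.pc k).1.r x.1 = p.1.r x.1 := hp.cp.rk x.1 hx
    have h3 : ot y.1 = ot (rM g x).1 := by
      rw [hy, ← h2, ← h1, (hg.ot_rM x).1]
    exact Subtype.ext (ot_inj.1 h3)

end Pool.Agent.Helper33.QB
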